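import Pool.Agent.Helper71.FreeThms

namespace Pool.Agent.Results.MP_5e1856_al.AffineGroups

open Pool.Agent.Helper71.FreeDefs

universe u v

/-- Let `G` be a (finite or infinite) group of affine automorphisms of `k⟨X⟩` which contains a
subgroup `T` of translations whose index in `G` is finite and nonzero in `k`.
Then the algebra of invariants of `G` is free. -/
theorem result {k : Type u} {X : Type v} [Field k]
    (G T : Subgroup (FreeAlgebra k X ≃ₐ[k] FreeAlgebra k X)) (hTG : T ≤ G)
    (hT : ∀ t ∈ T, ∀ x, ∃ c : k,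
      t (FreeAlgebra.ι k x) = FreeAlgebra.ι k x + algebraMap k (FreeAlgebra k X) c)
    (hG : ∀ g ∈ G, ∀ x, g (FreeAlgebra.ι k x) ∈
      Submodule.span k (insert 1 (Set.range (FreeAlgebra.ι k))))
    (hidx : (T.relIndex G : k) ≠ 0) : IsFree (invariants G) :=
  Pool.Agent.Helper71.FreeThms.affine G T hTG hT hG hidx

end Pool.Agent.Results.MP_5e1856_al.AffineGroups
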